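import Mathlib
import Pool.Agent.H7.ChromH2

set_option autoImplicit false

namespace Pool.Agent.Results.MP_9dade1_co.SymmetricDecomposition
open Finset

/-- `χ_G(n)`: the number of proper colourings of `G` with `n` colours. -/
noncomputable def chi {V : Type} (G : SimpleGraph V) (n : ℕ) : ℕ := Nat.card (G.Coloring (Fin n))

/-- `h_G(z) = (1 - z)^(d+1) ∑ χ_G(n) z^n`, `d = |V|`, as a power series. -/
noncomputable def hG {V : Type} [Fintype V] (G : SimpleGraph V) : PowerSeries ℤ :=
  (1 - PowerSeries.X) ^ (Fintype.card V + 1) * PowerSeries.mk fun n => (chi G n : ℤ)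

/-- `p` is `m`-symmetric: `deg p ≤ m` and `p_i = p_{m-i}`. -/
def Symm (m : ℕ) (p : Polynomial ℤ) : Prop :=
  p.natDegree ≤ m ∧ ∀ i ≤ m, p.coeff i = p.coeff (m - i)

/-- `h_G = a + z b` with `a` `d`-symmetric and `b` `(d-1)`-symmetric. -/
def Dec {V : Type} [Fintype V] (G : SimpleGraph V) (a b : Polynomial ℤ) : Prop :=
  hG G = ((a + Polynomial.X * b : Polynomial ℤ) : PowerSeries ℤ) ∧
    Symm (Fintype.card V) a ∧ Symm (Fintype.card V - 1) b

open Pool.Agent.H7.ChromH

theorem S_succ (d i : ℕ) (f : PowerSeries ℤ) :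
    S d (i + 1) f = S d i f + PowerSeries.coeff (d - i) f - PowerSeries.coeff (i + 1) f := by
  unfold S
  rw [Finset.sum_range_succ _ i, Finset.sum_range_succ _ (i + 1)]; ring

theorem S_symm (d : ℕ) (f : PowerSeries ℤ) (i : ℕ) (hi : i ≤ d) : S d (d - i) f = S d i f := by
  induction i with
  | zero =>
    unfold S
    rw [Nat.sub_zero, Finset.sum_range_succ' _ d]
    have := Finset.sum_range_reflect (fun j => PowerSeries.coeff (j + 1) f) d
    have h2 : ∑ j ∈ range d, PowerSeries.coeff (d - j) f =
        ∑ j ∈ range d, PowerSeries.coeff (d - 1 - j + 1) f :=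
      Finset.sum_congr rfl fun j hj => by
        rw [show d - 1 - j + 1 = d - j by have := Finset.mem_range.1 hj; omega]
    rw [h2, this]; simp
  | succ i ih =>
    have h1 := ih (by omega)
    have h2 := S_succ d (d - (i + 1)) f
    rw [show d - (i + 1) + 1 = d - i by omega, show d - (d - (i + 1)) = i + 1 by omega] at h2
    rw [S_succ]; linarith

theorem coeff_sum (m : ℕ) (c : ℕ → ℤ) (i : ℕ) :
    (∑ j ∈ range m, Polynomial.monomial j (c j)).coeff i = if i < m then c i else 0 := by
  simp [Polynomial.coeff_monomial]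

/-- The decomposition exists, and in it `b` has nonnegative and `a` nonpositive coefficients. -/
theorem result (V : Type) [Fintype V] (hV : 1 ≤ Fintype.card V) (G : SimpleGraph V) :
    (∃ a b, Dec G a b) ∧ ∀ a b, Dec G a b → ∀ i, 0 ≤ b.coeff i ∧ a.coeff i ≤ 0 := by
  classical
  have hc : (cnt fun a b => (a, b) ∈ (univ.filter fun p : V × V => G.Adj p.1 p.2)) = chi G := by
    funext n
    unfold cnt chi
    rw [← Fintype.card_subtype, ← Nat.card_eq_fintype_card]
    refine Nat.card_congr ⟨fun φ => SimpleGraph.Coloring.mk φ.1 fun {a b} hab =>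
      φ.2 a b (by simpa using hab), fun c => ⟨c, fun a b hab => c.valid (by simpa using hab)⟩,
      fun _ => rfl, fun _ => rfl⟩
  have hgood := good_cnt fun a b => (a, b) ∈ (univ.filter fun p : V × V => G.Adj p.1 p.2)
  have hmain := fun i h1 hi => main i h1 hi (univ.filter fun p : V × V => G.Adj p.1 p.2)
  rw [hc] at hgood hmain
  have hP : P (Fintype.card V) (chi G) = hG G := rfl
  unfold Good at hgood
  rw [hP] at hgood hmain
  unfold Dec
  obtain ⟨d, hd⟩ : ∃ d, Fintype.card V = d + 1 := ⟨Fintype.card V - 1, by omega⟩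
  rw [hd] at hgood hmain ⊢
  rw [Nat.add_sub_cancel]
  generalize hG G = f at *
  have hS : ∀ i ≤ d + 1, 0 ≤ S (d + 1) i f := by
    intro i hi
    rcases Nat.eq_zero_or_pos i with rfl | h
    · rw [← S_symm _ _ 0 hi]; exact hmain _ (by omega) (by omega)
    · exact hmain i h hi
  constructor
  · refine ⟨∑ j ∈ range (d + 2), Polynomial.monomial j (-S (d + 1) j f),
      ∑ j ∈ range (d + 1), Polynomial.monomial j (S (d + 1) j f + PowerSeries.coeff (d + 1 - j) f),
      ?_, ⟨?_, ?_⟩, ⟨?_, ?_⟩⟩
    · ext n
      rw [Polynomial.coeff_coe, Polynomial.coeff_add]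
      cases n with
      | zero => rw [Polynomial.coeff_X_mul_zero, coeff_sum]; simp [S]
      | succ n =>
        rw [Polynomial.coeff_X_mul, coeff_sum, coeff_sum]
        by_cases h : n < d + 1
        · rw [if_pos (by omega), if_pos h, S_succ]; ring
        · rw [if_neg (by omega), if_neg h, (hgood _).2 (by omega)]; rfl
    · rw [Polynomial.natDegree_le_iff_coeff_eq_zero]
      intro n hn; rw [coeff_sum, if_neg (by omega)]
    · intro i hi
      rw [coeff_sum, coeff_sum, if_pos (by omega), if_pos (by omega), S_symm _ _ _ hi]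
    · rw [Polynomial.natDegree_le_iff_coeff_eq_zero]
      intro n hn; rw [coeff_sum, if_neg (by omega)]
    · intro i hi
      rw [coeff_sum, coeff_sum, if_pos (by omega), if_pos (by omega)]
      have h1 := S_symm (d + 1) f (i + 1) (by omega)
      rw [show d + 1 - (i + 1) = d - i by omega, S_succ] at h1
      rw [h1, show d + 1 - (d - i) = i + 1 by omega]; ring
  · rintro a b ⟨hf, ⟨ha1, ha2⟩, ⟨hb1, hb2⟩⟩
    have h0 : PowerSeries.coeff 0 f = a.coeff 0 := by
      rw [hf, Polynomial.coeff_coe, Polynomial.coeff_add, Polynomial.coeff_X_mul_zero, add_zero]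
    have h1 : ∀ n, PowerSeries.coeff (n + 1) f = a.coeff (n + 1) + b.coeff n := fun n => by
      rw [hf, Polynomial.coeff_coe, Polynomial.coeff_add, Polynomial.coeff_X_mul]
    have h2 : ∀ i ≤ d, PowerSeries.coeff (d + 1 - i) f = a.coeff i + b.coeff i := by
      intro i hi
      rw [ha2 i (by omega), hb2 i hi, show d + 1 - i = d - i + 1 by omega, h1]
    have h3 : ∀ i ≤ d + 1, a.coeff i = -S (d + 1) i f := by
      intro i hi
      induction i with
      | zero => simp [S, ← h0]
      | succ i ih => rw [S_succ, h2 i (by omega), h1, ih (by omega)]; ring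
    intro i
    constructor
    · by_cases hi : i ≤ d
      · have e1 := h2 i hi
        have e2 := h3 i (by omega)
        have e3 := hS i (by omega)
        have e4 := (hgood (d + 1 - i)).1
        linarith
      · rw [Polynomial.coeff_eq_zero_of_natDegree_lt (by omega)]
    · by_cases hi : i ≤ d + 1
      · rw [h3 i hi]; linarith [hS i hi]
      · rw [Polynomial.coeff_eq_zero_of_natDegree_lt (by omega)]

end Pool.Agent.Results.MP_9dade1_co.SymmetricDecomposition
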